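import Pool.Agent.Lib.MP_0d5e35_al.BicPower

/-!
# MP_0d5e35_al: the exponent of a bicrossed product divides its dimension

Kashina's divisibility `exp(H) ∣ dim(H)` for all bicrossed products `k^F #_{σ,τ} kL` of a matched
pair of finite groups with a pair of compatible 2-cocycles (all abelian extensions), over any field.
-/

set_option autoImplicit false

namespace Pool.Agent.Results.MP_0d5e35_al.BicrossedProducts

open Pool.Agent.BicHopf

/-- Every Hopf algebra `H` that is a bicrossed product `k^F #_{σ,τ} kL` has an involutive antipode,
and its exponent exists and divides its dimension `|F| |L|`. -/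
theorem result (k F L : Type) [Field k] [Group F] [Group L] [Fintype F] [DecidableEq F]
    [Fintype L] (D : Datum k F L) (H : Type) [Ring H] [HopfAlgebra k H]
    (B : IsBicrossed D H) :
    HopfAlgebra.antipode k (A := H) ∘ₗ HopfAlgebra.antipode k (A := H) = LinearMap.id ∧
      ∃ n, IsExponent k H n ∧ n ∣ Module.finrank k H := by
  classical
  exact ⟨B.antipode_sq, B.exponent_dvd⟩

end Pool.Agent.Results.MP_0d5e35_al.BicrossedProducts
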