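import Pool.Agent.Lib.KExp.Fin
import Pool.Agent.Lib.KOd.HMain

/-!
# MP_0d5e35_al: Kashina's conjecture in odd cube-free dimension

Let `H` be a Hopf algebra of odd dimension with `S² = id` over a field of characteristic zero (all
semisimple ones, by Larson and Radford). Then `exp(H)³` divides `dim(H)⁴`; in particular `exp(H)`
divides `dim(H)` if `dim(H)` is cube-free.
-/

set_option autoImplicit false

namespace Pool.Agent.Results.MP_0d5e35_al.OddCubeFree

/-- `exp(H) = n`: with `S'` the inverse of the antipode, `n` is the least positive integer such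
that `m_n ∘ (I ⊗ S'² ⊗ S'⁴ ⊗ ⋯ ⊗ S'^(2n-2)) ∘ Δ_n = ε · 1`; the left hand side is the `n`-th
iterate of `T ↦ m ∘ (I ⊗ S'² T) ∘ Δ` at `ε · 1`. -/
def IsExponent (k H : Type) [Field k] [Ring H] [HopfAlgebra k H] (n : ℕ) : Prop :=
  ∃ S' : H →ₗ[k] H,
    S' ∘ₗ HopfAlgebra.antipode k (A := H) = LinearMap.id ∧
    HopfAlgebra.antipode k (A := H) ∘ₗ S' = LinearMap.id ∧
    IsLeast {m : ℕ | 0 < m ∧
      (fun T : H →ₗ[k] H => LinearMap.mul' k H ∘ₗ
          TensorProduct.map LinearMap.id (S' ∘ₗ S' ∘ₗ T) ∘ₗ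
          Coalgebra.comul (R := k) (A := H))^[m]
        (Algebra.linearMap k H ∘ₗ Coalgebra.counit (R := k) (A := H))
        = Algebra.linearMap k H ∘ₗ Coalgebra.counit (R := k) (A := H)} n

private theorem dvd_of_cubeFree {N d : ℕ} (hd : 0 < d) (h : N ^ 3 ∣ d ^ 4)
    (hc : ∀ p : ℕ, p.Prime → ¬ p ^ 3 ∣ d) : N ∣ d := by
  have hN : N ≠ 0 := by
    rintro rfl
    have h1 : d ^ 4 = 0 := by
      rw [zero_pow (by norm_num)] at h
      exact Nat.eq_zero_of_zero_dvd h
    exact hd.ne' (pow_eq_zero_iff (by norm_num) |>.1 h1)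
  rw [← Nat.factorization_le_iff_dvd hN hd.ne']
  intro p
  by_cases hp : p.Prime
  · have hf := Fact.mk hp
    have h1 : padicValNat p (N ^ 3) ≤ padicValNat p (d ^ 4) :=
      (padicValNat_dvd_iff_le (pow_pos hd 4).ne').1 (pow_padicValNat_dvd.trans h)
    rw [padicValNat.pow, padicValNat.pow] at h1
    have h2 : padicValNat p d < 3 := by
      by_contra h3
      exact hc p hp ((padicValNat_dvd_iff_le hd.ne').2 (not_lt.1 h3))
    rw [Nat.factorization_def _ hp, Nat.factorization_def _ hp]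
    omega
  · rw [Nat.factorization_eq_zero_of_not_prime _ hp]
    exact Nat.zero_le _

/-- Let `H` be a Hopf algebra of finite odd dimension over a field `k` of characteristic zero whose
antipode satisfies `S² = id`. Then `exp(H)` exists, `exp(H)³` divides `dim(H)⁴`, and `exp(H)`
divides `dim(H)` if `dim(H)` is cube-free. -/
theorem result (k : Type) [Field k] [CharZero k] (H : Type) [Ring H] [HopfAlgebra k H]
    [FiniteDimensional k H]
    (hS : HopfAlgebra.antipode k (A := H) ∘ₗ HopfAlgebra.antipode k (A := H) = LinearMap.id)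
    (hodd : Odd (Module.finrank k H)) :
    ∃ n : ℕ, IsExponent k H n ∧ n ^ 3 ∣ Module.finrank k H ^ 4 ∧
      ((∀ p : ℕ, p.Prime → ¬ p ^ 3 ∣ Module.finrank k H) → n ∣ Module.finrank k H) := by
  have hS' : ∀ x : H, Pool.Agent.KExp.Sa k H (Pool.Agent.KExp.Sa k H x) = x :=
    fun x => LinearMap.congr_fun hS x
  obtain ⟨N, hN, h1, -⟩ := Pool.Agent.KExp.exponent_cube (k := k) (H := H) hS'
  refine ⟨N, ⟨HopfAlgebra.antipode k (A := H), hS, hS, ?_⟩, h1 hodd,
    fun hc => dvd_of_cubeFree hodd.pos (h1 hodd) hc⟩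
  have he : ∀ m : ℕ, (fun T : H →ₗ[k] H => LinearMap.mul' k H ∘ₗ
          TensorProduct.map LinearMap.id (HopfAlgebra.antipode k (A := H) ∘ₗ
            HopfAlgebra.antipode k (A := H) ∘ₗ T) ∘ₗ
          Coalgebra.comul (R := k) (A := H))^[m]
        (Algebra.linearMap k H ∘ₗ Coalgebra.counit (R := k) (A := H)) =
        Pool.Agent.KExp.Q k H m :=
    fun m => Pool.Agent.KExp.iterate_eq_Q hS' _ hS m
  simp only [he]
  exact hN

end Pool.Agent.Results.MP_0d5e35_al.OddCubeFree
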