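import Pool.Agent.Lib.KExp.Fin
import Pool.Agent.Lib.KOd.HMain

/-!
# MP_0d5e35_al: exp(H) divides dim(H)^2

For every finite-dimensional Hopf algebra `H` with `S² = id` over a field of characteristic zero
(all semisimple ones, by Larson and Radford) the exponent exists and divides `dim(H)²`; if `dim(H)`
is even, `2 exp(H)` divides `dim(H)²`.
-/

set_option autoImplicit false

namespace Pool.Agent.Results.MP_0d5e35_al.SquareBound

/-- `exp(H) = n`: with `S'` the inverse of the antipode, `n` is the least positive integer such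
that `m_n ∘ (I ⊗ S'² ⊗ S'⁴ ⊗ ⋯ ⊗ S'^(2n-2)) ∘ Δ_n = ε · 1`; the left hand side is the `n`-th
iterate of `T ↦ m ∘ (I ⊗ S'² T) ∘ Δ` at `ε · 1`. -/
def IsExponent (k H : Type) [Field k] [Ring H] [HopfAlgebra k H] (n : ℕ) : Prop :=
  ∃ S' : H →ₗ[k] H,
    S' ∘ₗ HopfAlgebra.antipode k (A := H) = LinearMap.id ∧
    HopfAlgebra.antipode k (A := H) ∘ₗ S' = LinearMap.id ∧
    IsLeast {m : ℕ | 0 < m ∧
      (fun T : H →ₗ[k] H => LinearMap.mul' k H ∘ₗ
          TensorProduct.map LinearMap.id (S' ∘ₗ S' ∘ₗ T) ∘ₗ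
          Coalgebra.comul (R := k) (A := H))^[m]
        (Algebra.linearMap k H ∘ₗ Coalgebra.counit (R := k) (A := H))
        = Algebra.linearMap k H ∘ₗ Coalgebra.counit (R := k) (A := H)} n

/-- Let `H` be a finite-dimensional Hopf algebra over a field `k` of characteristic zero whose
antipode satisfies `S² = id`. Then `exp(H)` exists and divides `dim(H)²`, and `2 exp(H)` divides
`dim(H)²` if `dim(H)` is even. -/
theorem result (k : Type) [Field k] [CharZero k] (H : Type) [Ring H] [HopfAlgebra k H]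
    [FiniteDimensional k H]
    (hS : HopfAlgebra.antipode k (A := H) ∘ₗ HopfAlgebra.antipode k (A := H) = LinearMap.id) :
    ∃ n : ℕ, IsExponent k H n ∧ n ∣ Module.finrank k H ^ 2 ∧
      (Even (Module.finrank k H) → 2 * n ∣ Module.finrank k H ^ 2) := by
  have hS' : ∀ x : H, Pool.Agent.KExp.Sa k H (Pool.Agent.KExp.Sa k H x) = x :=
    fun x => LinearMap.congr_fun hS x
  obtain ⟨N, hN, h1, h2⟩ := Pool.Agent.KExp.exponent_cube (k := k) (H := H) hS'
  have h3 : N ∣ Module.finrank k H ^ 2 := by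
    rcases Nat.even_or_odd (Module.finrank k H) with he | ho
    · exact (Dvd.intro_left 2 rfl).trans (h2 he)
    · rw [← Nat.pow_dvd_pow_iff (n := 3) (by norm_num)]
      refine (h1 ho).trans ?_
      rw [← pow_mul]
      exact pow_dvd_pow _ (by norm_num)
  refine ⟨N, ⟨HopfAlgebra.antipode k (A := H), hS, hS, ?_⟩, h3, h2⟩
  have he : ∀ m : ℕ, (fun T : H →ₗ[k] H => LinearMap.mul' k H ∘ₗ
          TensorProduct.map LinearMap.id (HopfAlgebra.antipode k (A := H) ∘ₗ
            HopfAlgebra.antipode k (A := H) ∘ₗ T) ∘ₗ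
          Coalgebra.comul (R := k) (A := H))^[m]
        (Algebra.linearMap k H ∘ₗ Coalgebra.counit (R := k) (A := H)) =
        Pool.Agent.KExp.Q k H m :=
    fun m => Pool.Agent.KExp.iterate_eq_Q hS' _ hS m
  simp only [he]
  exact hN

end Pool.Agent.Results.MP_0d5e35_al.SquareBound
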