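import Pool.Agent.Lib.MP_0d5e35_al.BicDouble

/-!
# MP_0d5e35_al: the order of the ribbon element of twisted quantum doubles

If `G = F L` and the 3-cocycle `ω` is trivial on the subgroups `F` and `L`, then the ribbon element
of the twisted quantum double `D^ω(G)` has order dividing `|G|`.
-/

set_option autoImplicit false

namespace Pool.Agent.Results.MP_0d5e35_al.TwistedDoubles

open Pool.Agent.BicHopf

/-- Let `G` be a finite group with subgroups `F`, `L` such that `G = F L`, and let `ω` be a
normalized 3-cocycle of `G` with values in `kˣ` that is a coboundary on `F` and on `L`. Then the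
ribbon element `v = ∑_g e_g # g` of the twisted quantum double `D^ω(G)` satisfies `v ^ |G| = 1`,
and for every `c` in `G` the number `ord(c) ord(∏_{j < ord(c)} ω(c, c^j, c))` divides `|G|`. -/
theorem result (k G : Type) [Field k] [Group G] [Fintype G] [DecidableEq G]
    (F L : Subgroup G) (hFL : ∀ g : G, ∃ f ∈ F, ∃ l ∈ L, g = f * l)
    (ω : G → G → G → kˣ) (_hn : IsNormalized ω) (hω : IsCocycle3 ω)
    (hF : TrivialOn ω F) (hL : TrivialOn ω L)
    (E : Type) [Ring E] [Algebra k E] (B : IsTwistedDouble ω E) :
    B.ribbon ^ Fintype.card G = 1 ∧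
      ∀ c : G, orderOf c * orderOf (∏ j ∈ Finset.range (orderOf c), ω c (c ^ j) c) ∣
        Fintype.card G := by
  refine ⟨B.ribbon_pow_card F L hFL hω hF hL, fun c => ?_⟩
  have h := order_mul_dvd F L hFL hω hF hL c
  rwa [Nat.card_eq_fintype_card] at h

end Pool.Agent.Results.MP_0d5e35_al.TwistedDoubles
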